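import Pool.Agent.Helper50.BC.Goals

set_option autoImplicit false

open Finset Real
open Pool.Agent.Helper50.BC

namespace Pool.Agent.Helper86.BC

theorem up (hR : G_RAD) {S : Type} [Fintype S] [DecidableEq S] (N : ℕ) (u : S → ℝ) (d : ℝ)
    (hd : 0 < d) (hd2 : d ≤ 2) (ht : 0 < ∑ s, u s ^ 2) :
    ∑ A : Fin N → S → Bool, exp (d / (8 * ∑ s, u s ^ 2) *
      (∑ a, (sgsum u (A a)) ^ 2 - (1 + d) * (N * ∑ s, u s ^ 2))) ≤
      (2 ^ Fintype.card S) ^ N * exp (-(N * d ^ 2 / 16)) := by
  set t := ∑ s, u s ^ 2 with htd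
  set l := d / (8 * t) with hl
  have hlt : l * t = d / 8 := by rw [hl]; field_simp
  have hl0 : 0 ≤ l := by positivity
  obtain ⟨_, _, _, h4, _⟩ := hR S u
  have h := h4 l hl0 (by rw [← htd, hlt]; linarith)
  have e1 : ∀ A : Fin N → S → Bool,
      exp (l * (∑ a, (sgsum u (A a)) ^ 2 - (1 + d) * (N * t))) =
      exp (-(l * ((1 + d) * (N * t)))) * ∏ a, exp (l * (sgsum u (A a)) ^ 2) := by
    intro A
    rw [← Real.exp_sum, ← Real.exp_add, ← Finset.mul_sum]
    congr 1
    ring
  simp_rw [e1]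
  rw [← Finset.mul_sum, ← Fintype.sum_pow (fun b => exp (l * (sgsum u b) ^ 2)) N]
  have h5 : (∑ b : S → Bool, exp (l * (sgsum u b) ^ 2)) ^ N ≤
      (2 ^ Fintype.card S * exp (l * t + 4 * (l * t) ^ 2)) ^ N :=
    pow_le_pow_left₀ (Finset.sum_nonneg fun b _ => (exp_pos _).le) h N
  calc exp (-(l * ((1 + d) * (N * t)))) * (∑ b : S → Bool, exp (l * (sgsum u b) ^ 2)) ^ N
      ≤ exp (-(l * ((1 + d) * (N * t)))) *
        (2 ^ Fintype.card S * exp (l * t + 4 * (l * t) ^ 2)) ^ N :=
        mul_le_mul_of_nonneg_left h5 (exp_pos _).le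
    _ = (2 ^ Fintype.card S) ^ N * exp (-(N * d ^ 2 / 16)) := by
        rw [mul_pow, ← Real.exp_nat_mul, mul_left_comm, ← Real.exp_add]
        congr 2
        have e2 : l * ((1 + d) * (N * t)) = (1 + d) * N * (l * t) := by ring
        rw [e2, hlt]
        ring

theorem low (hR : G_RAD) {S : Type} [Fintype S] [DecidableEq S] (N : ℕ) (u : S → ℝ) (d : ℝ)
    (hd : 0 < d) (ht : 0 < ∑ s, u s ^ 2) :
    ∑ A : Fin N → S → Bool, exp (d / (8 * ∑ s, u s ^ 2) *
      ((1 - d) * (N * ∑ s, u s ^ 2) - ∑ a, (sgsum u (A a)) ^ 2)) ≤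
      (2 ^ Fintype.card S) ^ N * exp (-(N * d ^ 2 / 16)) := by
  set t := ∑ s, u s ^ 2 with htd
  set l := d / (8 * t) with hl
  have hlt : l * t = d / 8 := by rw [hl]; field_simp
  have hl0 : 0 ≤ l := by positivity
  obtain ⟨_, _, _, _, h4⟩ := hR S u
  have h := h4 l hl0
  have e1 : ∀ A : Fin N → S → Bool,
      exp (l * ((1 - d) * (N * t) - ∑ a, (sgsum u (A a)) ^ 2)) =
      exp (l * ((1 - d) * (N * t))) * ∏ a, exp (-(l * (sgsum u (A a)) ^ 2)) := by
    intro A
    rw [← Real.exp_sum, ← Real.exp_add, Finset.sum_neg_distrib, ← Finset.mul_sum]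
    congr 1
    ring
  simp_rw [e1]
  rw [← Finset.mul_sum, ← Fintype.sum_pow (fun b => exp (-(l * (sgsum u b) ^ 2))) N]
  have h5 : (∑ b : S → Bool, exp (-(l * (sgsum u b) ^ 2))) ^ N ≤
      (2 ^ Fintype.card S * exp (-(l * t) + 3 / 2 * (l * t) ^ 2)) ^ N :=
    pow_le_pow_left₀ (Finset.sum_nonneg fun b _ => (exp_pos _).le) h N
  calc exp (l * ((1 - d) * (N * t))) * (∑ b : S → Bool, exp (-(l * (sgsum u b) ^ 2))) ^ N
      ≤ exp (l * ((1 - d) * (N * t))) *
        (2 ^ Fintype.card S * exp (-(l * t) + 3 / 2 * (l * t) ^ 2)) ^ N :=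
        mul_le_mul_of_nonneg_left h5 (exp_pos _).le
    _ = (2 ^ Fintype.card S) ^ N * exp (-(N * (13 * d ^ 2 / 128))) := by
        rw [mul_pow, ← Real.exp_nat_mul, mul_left_comm, ← Real.exp_add]
        congr 2
        have e2 : l * ((1 - d) * (N * t)) = (1 - d) * N * (l * t) := by ring
        rw [e2, hlt]
        ring
    _ ≤ (2 ^ Fintype.card S) ^ N * exp (-(N * d ^ 2 / 16)) := by
        refine mul_le_mul_of_nonneg_left ?_ (by positivity)
        apply Real.exp_le_exp.mpr
        have : (0 : ℝ) ≤ N * d ^ 2 := by positivity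
        nlinarith

/-- JLA -/
theorem goalJLA (hR : G_RAD) : G_JLA := by
  intro S I _ _ _ N u d hd hd2 hI
  by_contra hcon
  push Not at hcon
  -- the weights
  let E1 : I → (Fin N → S → Bool) → ℝ := fun i A => exp (d / (8 * ∑ s, u i s ^ 2) *
      (∑ a, (sgsum (u i) (A a)) ^ 2 - (1 + d) * (N * ∑ s, u i s ^ 2)))
  let E2 : I → (Fin N → S → Bool) → ℝ := fun i A => exp (d / (8 * ∑ s, u i s ^ 2) *
      ((1 - d) * (N * ∑ s, u i s ^ 2) - ∑ a, (sgsum (u i) (A a)) ^ 2))
  let g : I → (Fin N → S → Bool) → ℝ := fun i A =>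
    if ∑ s, u i s ^ 2 = 0 then 0 else E1 i A + E2 i A
  have hM : (0 : ℝ) < (2 ^ Fintype.card S) ^ N := by positivity
  have hg0 : ∀ i A, 0 ≤ g i A := by
    intro i A
    simp only [g, E1, E2]
    split_ifs
    · exact le_rfl
    · exact add_nonneg (exp_pos _).le (exp_pos _).le
  have hg1 : ∀ A, 1 ≤ ∑ i, g i A := by
    intro A
    obtain ⟨i, hi⟩ := hcon A
    have hge : 1 ≤ g i A := by
      have ht : 0 ≤ ∑ s, u i s ^ 2 := Finset.sum_nonneg fun s _ => sq_nonneg _
      by_cases h0 : ∑ s, u i s ^ 2 = 0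
      · exfalso
        have hz : ∀ s, u i s = 0 := by
          intro s
          have := (Finset.sum_eq_zero_iff_of_nonneg (fun s _ => sq_nonneg (u i s))).1 h0 s
            (Finset.mem_univ s)
          exact pow_eq_zero_iff (two_ne_zero) |>.1 this
        have hq : ∑ a, (sgsum (u i) (A a)) ^ 2 = 0 := by
          apply Finset.sum_eq_zero
          intro a _
          have : sgsum (u i) (A a) = 0 := by
            unfold sgsum
            apply Finset.sum_eq_zero
            intro s _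
            rw [hz s, mul_zero]
          rw [this]
          norm_num
        rw [h0, hq] at hi
        simp at hi
      · have htp : 0 < ∑ s, u i s ^ 2 := lt_of_le_of_ne ht (Ne.symm h0)
        have hl : 0 ≤ d / (8 * ∑ s, u i s ^ 2) := by positivity
        simp only [g, if_neg h0]
        by_cases hlo : (1 - d) * (N * ∑ s, u i s ^ 2) ≤ ∑ a, (sgsum (u i) (A a)) ^ 2
        · have hup := hi hlo
          have : 1 ≤ E1 i A := by
            simp only [E1]
            apply Real.one_le_exp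
            exact mul_nonneg hl (by linarith)
          have h2 : 0 ≤ E2 i A := (exp_pos _).le
          linarith
        · push Not at hlo
          have : 1 ≤ E2 i A := by
            simp only [E2]
            apply Real.one_le_exp
            exact mul_nonneg hl (by linarith)
          have h2 : 0 ≤ E1 i A := (exp_pos _).le
          linarith
    exact hge.trans (Finset.single_le_sum (f := fun i => g i A) (fun i _ => hg0 i A)
      (Finset.mem_univ i))
  have hsum : ∀ i, ∑ A, g i A ≤ 2 * ((2 ^ Fintype.card S) ^ N * exp (-(N * d ^ 2 / 16))) := by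
    intro i
    have ht : 0 ≤ ∑ s, u i s ^ 2 := Finset.sum_nonneg fun s _ => sq_nonneg _
    by_cases h0 : ∑ s, u i s ^ 2 = 0
    · simp only [g, if_pos h0, Finset.sum_const_zero]
      positivity
    · have htp : 0 < ∑ s, u i s ^ 2 := lt_of_le_of_ne ht (Ne.symm h0)
      simp only [g, if_neg h0, Finset.sum_add_distrib]
      have h1 := up hR N (u i) d hd hd2 htp
      have h2 := low hR N (u i) d hd htp
      simp only [E1, E2]
      linarith
  have hcard : ((2 : ℝ) ^ Fintype.card S) ^ N ≤ ∑ A : Fin N → S → Bool, ∑ i, g i A := by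
    have : (((2 : ℝ) ^ Fintype.card S) ^ N) = ∑ A : Fin N → S → Bool, (1 : ℝ) := by
      simp
    rw [this]
    exact Finset.sum_le_sum fun A _ => hg1 A
  rw [Finset.sum_comm] at hcard
  have h3 : ∑ i, ∑ A, g i A ≤
      ∑ i : I, 2 * ((2 ^ Fintype.card S) ^ N * exp (-(N * d ^ 2 / 16))) :=
    Finset.sum_le_sum fun i _ => hsum i
  rw [Finset.sum_const, nsmul_eq_mul, Finset.card_univ] at h3
  have h4 : (Fintype.card I : ℝ) * (2 * ((2 ^ Fintype.card S) ^ N * exp (-(N * d ^ 2 / 16)))) =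
      (2 ^ Fintype.card S) ^ N * (2 * (Fintype.card I : ℝ) * exp (-(N * d ^ 2 / 16))) := by ring
  rw [h4] at h3
  have h5 : (2 ^ Fintype.card S) ^ N * (2 * (Fintype.card I : ℝ) * exp (-(N * d ^ 2 / 16))) <
      ((2 : ℝ) ^ Fintype.card S) ^ N * 1 := mul_lt_mul_of_pos_left hI hM
  linarith

end Pool.Agent.Helper86.BC
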